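import Pool.Agent.U339.CE.Coll

set_option autoImplicit false

/-! # The sets of integers invariant under the Collatz map -/

namespace Pool.Agent.U339.CE.Z

open Finset Filter Topology
open Pool.Agent.H499R2.CO (Tz coalT_count)
open Pool.Agent.H499R2.ND (Td Inv HD dens_side one_pos HD_ncard)

theorem Tz_sign {s : ℤ} (hs : s = 1 ∨ s = -1) (x : ℤ) : s * Tz s x = Tz 1 (s * x) := by
  unfold Tz
  rcases hs with rfl | rfl
  · simp only [one_mul]
  · have h1 : (-1 * x) % 2 = 0 ↔ x % 2 = 0 := by omega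
    by_cases h : x % 2 = 0
    · rw [if_pos (h1.2 h), if_pos h]; omega
    · rw [if_neg (fun h2 => h (h1.1 h2)), if_neg h]; omega

theorem Tz_sign_iter {s : ℤ} (hs : s = 1 ∨ s = -1) (k : ℕ) : ∀ x : ℤ,
    s * (Tz s)^[k] x = (Tz 1)^[k] (s * x) := by
  induction k with
  | zero => intro x; rfl
  | succ k ih =>
    intro x
    rw [Function.iterate_succ_apply, Function.iterate_succ_apply, ih, Tz_sign hs]

/-- The Collatz map on the integers. -/
def C (x : ℤ) : ℤ := if x % 2 = 0 then x / 2 else 3 * x + 1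

/-- `S` is invariant under the Collatz map and its inverse. -/
def Invariant (S : Set ℤ) : Prop := ∀ x : ℤ, x ∈ S ↔ C x ∈ S

theorem Invariant.compl {S : Set ℤ} (h : Invariant S) : Invariant Sᶜ :=
  fun x => not_congr (h x)

theorem inv_of {S : Set ℤ} (hS : Invariant S) : Inv 1 S := by
  intro x
  have e : Td 1 x = C x ∨ Td 1 x = C (C x) := by
    unfold Td C
    by_cases h : x % 2 = 0
    · left; simp [h]
    · right
      have h2 : (3 * x + 1) % 2 = 0 := by omega
      simp [h, h2]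
  rcases e with h | h
  · rw [h]; exact hS x
  · rw [h]; exact (hS x).trans (hS (C x))

/-- the properties of the positive integers given by the invariant sets on the side `s` -/
def fam (s : ℤ) : Set (ℕ → Prop) := {P | ∃ S : Set ℤ, Invariant S ∧ P = fun n : ℕ => s * (n : ℤ) ∈ S}

theorem mem_fam (s : ℤ) {S : Set ℤ} (hS : Invariant S) : (fun n : ℕ => s * (n : ℤ) ∈ S) ∈ fam s :=
  ⟨S, hS, rfl⟩

theorem Tz_inv {S : Set ℤ} (hS : Invariant S) (t : ℕ) : ∀ x : ℤ, x ∈ S ↔ (Tz 1)^[t] x ∈ S := by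
  induction t with
  | zero => intro x; rfl
  | succ t ih =>
    intro x
    rw [Function.iterate_succ_apply, ← ih]
    exact inv_of hS x

theorem AC_fam {s : ℤ} (hs : s = 1 ∨ s = -1) : AC (fam s) := by
  classical
  intro j ε hε
  obtain ⟨k, hk⟩ := coalT_count (d := s) (by rcases hs with rfl | rfl <;> norm_num) (s * j : ℤ)
    (show 0 < ε / 2 by positivity)
  have hlarge : ∀ᶠ N : ℕ in atTop, ε / 2 * ((2 : ℝ) ^ k + 1) ≤ ε / 2 * N := by
    have : Tendsto (fun N : ℕ => ε / 2 * (N : ℝ)) atTop atTop :=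
      Tendsto.const_mul_atTop (by positivity) tendsto_natCast_atTop_atTop
    exact this.eventually_ge_atTop _
  filter_upwards [hlarge] with N hN
  have h1 := hk N
  have h2 : badF (fam s) j N ⊆
      {n ∈ Icc 1 N | ¬ ∃ t ≤ k, (Tz s)^[t] ((n : ℕ) : ℤ) = (Tz s)^[t] ((n : ℤ) + s * (s * j))} := by
    intro n hn
    unfold badF at hn
    rw [mem_filter] at hn ⊢
    obtain ⟨h3, P, ⟨S, hS, rfl⟩, hbad⟩ := hn
    refine ⟨h3, ?_⟩
    rintro ⟨t, -, ht⟩
    apply hbad
    have e0 : s * (s * (j : ℤ)) = j := by rcases hs with rfl | rfl <;> ring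
    have e1 : ((n : ℤ) + s * (s * j)) = ((n + j : ℕ) : ℤ) := by rw [e0]; push_cast; ring
    rw [e1] at ht
    show s * ((n + j : ℕ) : ℤ) ∈ S ↔ s * (n : ℤ) ∈ S
    rw [Tz_inv hS t (s * ((n + j : ℕ) : ℤ)), Tz_inv hS t (s * (n : ℤ)), ← Tz_sign_iter hs, ← Tz_sign_iter hs, ht]
  have h3 : (#(badF (fam s) j N) : ℝ) ≤ ε / 2 * (N + 2 ^ k + 1) := by
    refine le_trans ?_ h1
    exact_mod_cast card_le_card h2
  linarith

open Classical in
theorem ncard_side {s : ℤ} (hs : s = 1 ∨ s = -1) (S : Set ℤ) (N : ℕ) :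
    {n : ℤ | 0 < s * n ∧ s * n ≤ N ∧ n ∈ S}.ncard = #((Icc 1 N).filter fun n : ℕ => s * (n : ℤ) ∈ S) := by
  have h : {n : ℤ | 0 < s * n ∧ s * n ≤ N ∧ n ∈ S} =
      (fun n : ℕ => s * (n : ℤ)) '' (((Icc 1 N).filter fun n : ℕ => s * (n : ℤ) ∈ S : Finset ℕ) : Set ℕ) := by
    ext x
    simp only [Set.mem_ofPred_eq, Set.mem_image, coe_filter, Finset.mem_Icc]
    constructor
    · rintro ⟨h1, h2, h3⟩
      have e : s * ((s * x).toNat : ℤ) = x := by
        rw [Int.toNat_of_nonneg h1.le]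
        rcases hs with rfl | rfl <;> ring
      refine ⟨(s * x).toNat, ⟨⟨by omega, by omega⟩, ?_⟩, e⟩
      rw [e]; exact h3
    · rintro ⟨n, ⟨⟨h1, h2⟩, h3⟩, rfl⟩
      have e : s * (s * (n : ℤ)) = n := by rcases hs with rfl | rfl <;> ring
      rw [e]
      exact ⟨by omega, by omega, h3⟩
  rw [h, Set.ncard_image_of_injective, Set.ncard_coe_finset]
  intro a b hab
  have : s * (a : ℤ) = s * b := hab
  rcases hs with rfl | rfl <;> omega

open Classical in
/-- positive density on every side which is met -/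
theorem dens_pos {s : ℤ} (hs : s = 1 ∨ s = -1) {S : Set ℤ} (hS : Invariant S) {a : ℤ} (ha : a ∈ S)
    (ha0 : 0 < s * a) :
    ∃ δ : ℝ, 0 < δ ∧ ∀ᶠ N : ℕ in atTop, δ * N ≤ #((Icc 1 N).filter fun n : ℕ => s * (n : ℤ) ∈ S) := by
  obtain ⟨l, -, -, hl⟩ := dens_side odd_one isCoprime_one_left hs (inv_of hS)
  have h0 := one_pos hs (inv_of hS) ha ha0 hl
  refine ⟨l / 2, by positivity, ?_⟩
  filter_upwards [(HD_ncard hs hl).eventually (lt_mem_nhds (by linarith : l / 2 < l)),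
    eventually_ge_atTop 1] with N h3 h4
  have hN : (0 : ℝ) < N := by exact_mod_cast h4
  rw [ncard_side hs, lt_div_iff₀ hN] at h3
  exact h3.le

end Pool.Agent.U339.CE.Z
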