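import Pool.Agent.U339.CE.Erg

set_option autoImplicit false

/-! # Generic sequences of ergodic measures are regular -/

namespace Pool.Agent.U339.CE.Sym

open MeasureTheory Finset Filter Topology Pool.Agent.R243.Erg

variable {A : Type*}

/-- the shift -/
def shift (x : ℕ → A) : ℕ → A := fun n => x (n + 1)

/-- the sequences starting with the word `w` -/
def cyl {k : ℕ} (w : Fin k → A) : Set (ℕ → A) := {x | ∀ i : Fin k, x i = w i}

/-- every word occurs in `a` with the frequency given by `μ` -/
def Generic [MeasurableSpace A] (μ : Measure (ℕ → A)) (a : ℕ → A) : Prop :=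
  ∀ (k : ℕ) (w : Fin k → A), Tendsto (fun N : ℕ =>
    ({n : ℕ | n < N ∧ ∀ i : Fin k, a (n + i) = w i}.ncard : ℝ) / N) atTop (𝓝 (μ.real (cyl w)))

theorem shift_iter (x : ℕ → A) (n i : ℕ) : (shift^[n] x) i = x (n + i) := by
  induction n generalizing x with
  | zero => simp
  | succ n ih =>
    rw [Function.iterate_succ_apply, ih]
    unfold shift
    congr 1
    ring

theorem mem_cyl_iter {k : ℕ} (w : Fin k → A) (x : ℕ → A) (n : ℕ) :
    shift^[n] x ∈ cyl w ↔ ∀ i : Fin k, x (n + i) = w i := by
  unfold cyl
  simp only [Set.mem_ofPred_eq, shift_iter]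

variable [MeasurableSpace A]

theorem shift_meas : Measurable (shift : (ℕ → A) → (ℕ → A)) :=
  measurable_pi_lambda _ fun n => measurable_pi_apply (n + 1)

theorem cyl_meas [MeasurableSingletonClass A] {k : ℕ} (w : Fin k → A) : MeasurableSet (cyl w) := by
  have : cyl w = ⋂ i : Fin k, (fun x : ℕ → A => x i) ⁻¹' {w i} := by
    ext x
    simp [cyl]
  rw [this]
  exact MeasurableSet.iInter fun i => measurable_pi_apply _ (measurableSet_singleton _)

open Classical in
/-- frequencies of local functions along a generic sequence -/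
theorem gen_local [Fintype A] [MeasurableSingletonClass A] {μ : Measure (ℕ → A)} [IsProbabilityMeasure μ]
    {a : ℕ → A} (ha : Generic μ a) {m : ℕ} {F : (ℕ → A) → ℝ}
    (hF : ∀ x y : ℕ → A, (∀ i < m, x i = y i) → F x = F y) :
    Tendsto (fun N : ℕ => av shift N F a) atTop (𝓝 (∫ x, F x ∂μ)) := by
  set r : (Fin m → A) → (ℕ → A) := fun w n => if h : n < m then w ⟨n, h⟩ else a 0 with hr
  have h1 : ∀ x : ℕ → A, F x = ∑ w : Fin m → A, (cyl w).indicator (fun _ => F (r w)) x := by
    intro x
    rw [Finset.sum_eq_single (fun i : Fin m => x i)]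
    · rw [Set.indicator_of_mem]
      · apply hF
        intro i hi
        simp [hr, hi]
      · intro i; rfl
    · intro w _ hw
      rw [Set.indicator_of_notMem]
      intro h
      apply hw
      funext i
      exact (h i).symm
    · intro h
      exact (h (mem_univ _)).elim
  have h2 : ∫ x, F x ∂μ = ∑ w : Fin m → A, μ.real (cyl w) * F (r w) := by
    rw [show F = fun x => ∑ w : Fin m → A, (cyl w).indicator (fun _ => F (r w)) x from funext h1,
      integral_finsetSum]
    · apply Finset.sum_congr rfl
      intro w _
      rw [integral_indicator_const _ (cyl_meas w), smul_eq_mul]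
      exact congrArg (fun t => μ.real (cyl w) * t) (h1 (r w))
    · intro w _
      exact (integrable_const _).indicator (cyl_meas w)
  rw [h2]
  have h3 : ∀ N : ℕ, av shift N F a = ∑ w : Fin m → A,
      (({n : ℕ | n < N ∧ ∀ i : Fin m, a (n + i) = w i}.ncard : ℝ) / N) * F (r w) := by
    intro N
    unfold av
    have h4 : ∀ w : Fin m → A, ({n : ℕ | n < N ∧ ∀ i : Fin m, a (n + i) = w i}.ncard : ℝ) =
        ∑ n ∈ range N, if (∀ i : Fin m, a (n + i) = w i) then (1 : ℝ) else 0 := by
      intro w
      have : {n : ℕ | n < N ∧ ∀ i : Fin m, a (n + i) = w i} =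
          (((range N).filter fun n => ∀ i : Fin m, a (n + i) = w i : Finset ℕ) : Set ℕ) := by
        ext n
        simp
      rw [this, Set.ncard_coe_finset, Finset.card_filter]
      push_cast
      rfl
    simp only [h4]
    have h5 : ∀ n, F (shift^[n] a) = ∑ w : Fin m → A,
        (if (∀ i : Fin m, a (n + i) = w i) then (1 : ℝ) else 0) * F (r w) := by
      intro n
      rw [h1 (shift^[n] a)]
      apply Finset.sum_congr rfl
      intro w _
      by_cases h : ∀ i : Fin m, a (n + i) = w i
      · rw [if_pos h, one_mul, Set.indicator_of_mem ((mem_cyl_iter w a n).2 h)]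
      · rw [if_neg h, zero_mul, Set.indicator_of_notMem (fun h' => h ((mem_cyl_iter w a n).1 h'))]
    simp only [h5]
    rw [Finset.sum_comm, Finset.mul_sum]
    apply Finset.sum_congr rfl
    intro w _
    rw [← Finset.sum_mul]
    ring
  simp only [h3]
  exact tendsto_finsetSum _ fun w _ => (ha m w).mul_const _

open Classical in
/-- the window means of the indicator function of a cylinder, in the mean -/
theorem win_int [MeasurableSingletonClass A] {μ : Measure (ℕ → A)} [IsProbabilityMeasure μ]
    (hμ : Ergodic shift μ) {k : ℕ} (w : Fin k → A) :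
    Tendsto (fun H : ℕ => ∫ x, |av shift (H + 1) ((cyl w).indicator fun _ => (1 : ℝ)) x - μ.real (cyl w)| ∂μ)
      atTop (𝓝 0) := by
  set f : (ℕ → A) → ℝ := (cyl w).indicator fun _ => (1 : ℝ) with hf
  have hfm : Measurable f := measurable_const.indicator (cyl_meas w)
  have hfi : Integrable f μ := (integrable_const 1).indicator (cyl_meas w)
  have hf1 : ∀ x, |f x| ≤ 1 := by
    intro x
    by_cases h : x ∈ cyl w
    · rw [hf, Set.indicator_of_mem h, abs_one]
    · rw [hf, Set.indicator_of_notMem h, abs_zero]; exact zero_le_one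
  have hint : ∫ x, f x ∂μ = μ.real (cyl w) := by
    rw [hf, integral_indicator_const _ (cyl_meas w), smul_eq_mul, mul_one]
  have hce : ∀ᵐ x ∂μ, (μ[f | MeasurableSpace.invariants shift]) x = μ.real (cyl w) := by
    have hm : StronglyMeasurable[MeasurableSpace.invariants shift] (μ[f | MeasurableSpace.invariants shift]) :=
      stronglyMeasurable_condExp
    have hinv : (μ[f | MeasurableSpace.invariants shift]) ∘ shift = μ[f | MeasurableSpace.invariants shift] :=
      MeasurableSpace.comp_eq_of_measurable_invariants hm.measurable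
    obtain ⟨c, hc⟩ := hμ.ae_eq_const_of_ae_eq_comp_ae
      (hm.mono (MeasurableSpace.invariants_le shift)).aestronglyMeasurable
      (Eventually.of_forall fun x => congrFun hinv x)
    have h2 : ∫ y, f y ∂μ = c := by
      rw [← integral_condExp (MeasurableSpace.invariants_le shift) (f := f), integral_congr_ae hc]
      simp
    filter_upwards [hc] with x hx
    rw [hx, ← hint, h2]
    rfl
  have h1 : Tendsto (fun H : ℕ => ∫ x, |av shift (H + 1) f x - μ.real (cyl w)| ∂μ) atTop
      (𝓝 (∫ _ : ℕ → A, (0 : ℝ) ∂μ)) := by
    refine tendsto_integral_of_dominated_convergence (fun _ => (1 : ℝ) + 1)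
      (fun H => ?_) (integrable_const _) (fun H => ?_) ?_
    · exact ((av_meas hμ.measurable hfm (H + 1)).sub_const _).abs.aestronglyMeasurable
    · refine Eventually.of_forall fun x => ?_
      rw [Real.norm_of_nonneg (abs_nonneg _)]
      have h2 : |av shift (H + 1) f x| ≤ 1 := by
        unfold av
        rw [abs_mul, abs_inv, Nat.abs_cast]
        have h3 : |∑ i ∈ range (H + 1), f (shift^[i] x)| ≤ ∑ i ∈ range (H + 1), (1 : ℝ) :=
          (Finset.abs_sum_le_sum_abs _ _).trans (Finset.sum_le_sum fun i _ => hf1 _)
        rw [Finset.sum_const, card_range, nsmul_eq_mul] at h3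
        rw [inv_mul_le_iff₀ (by positivity)]
        exact h3
      have h4 : |μ.real (cyl w)| ≤ 1 := by
        rw [abs_of_nonneg measureReal_nonneg]
        exact measureReal_le_one
      exact (abs_sub _ _).trans (add_le_add h2 h4)
    · filter_upwards [birkhoff_L1 hμ.toMeasurePreserving hfm hfi, hce] with x hx hx1
      rw [hx1] at hx
      have h2 := ((hx.comp (tendsto_add_atTop_nat 1)).sub_const (μ.real (cyl w))).abs
      have h3 : |μ.real (cyl w) - μ.real (cyl w)| = 0 := by simp
      rw [h3] at h2
      exact h2
  simpa using h1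

open Classical in
/-- **A generic sequence of an ergodic measure is regular.** -/
theorem reg_generic [Fintype A] [MeasurableSingletonClass A] {μ : Measure (ℕ → A)} [IsProbabilityMeasure μ]
    (hμ : Ergodic shift μ) {a : ℕ → A} (ha : Generic μ a) {k : ℕ} (w : Fin k → A) :
    Reg (fun n => if (∀ i : Fin k, a (n + i) = w i) then (1 : ℝ) else 0) (μ.real (cyl w)) := by
  intro ε hε
  obtain ⟨H, hH⟩ := ((win_int hμ w).eventually (gt_mem_nhds hε)).exists
  refine ⟨fun n => if (∀ i : Fin k, a (n + i) = w i) then (1 : ℝ) else 0, ⟨1, fun n => ?_⟩, ?_,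
    H + 1, by omega, ?_⟩
  · simp only
    split_ifs
    · simp
    · simp
  · filter_upwards with N
    simp only [sub_self, norm_zero, Finset.sum_const_zero]
    positivity
  · set F : (ℕ → A) → ℝ := fun x => |av shift (H + 1) ((cyl w).indicator fun _ => (1 : ℝ)) x - μ.real (cyl w)|
      with hF
    have hloc : ∀ x y : ℕ → A, (∀ i < H + 1 + k, x i = y i) → F x = F y := by
      intro x y hxy
      rw [hF]
      have h1 : av shift (H + 1) ((cyl w).indicator fun _ => (1 : ℝ)) x =
          av shift (H + 1) ((cyl w).indicator fun _ => (1 : ℝ)) y := by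
        unfold av
        congr 1
        apply Finset.sum_congr rfl
        intro j hj
        rw [Finset.mem_range] at hj
        have h2 : shift^[j] x ∈ cyl w ↔ shift^[j] y ∈ cyl w := by
          rw [mem_cyl_iter, mem_cyl_iter]
          apply forall_congr'
          intro i
          rw [hxy (j + i) (by omega)]
        by_cases h : shift^[j] x ∈ cyl w
        · rw [Set.indicator_of_mem h, Set.indicator_of_mem (h2.1 h)]
        · rw [Set.indicator_of_notMem h, Set.indicator_of_notMem (fun h' => h (h2.2 h'))]
      simp only [h1]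
    filter_upwards [ev_sum (fun y => abs_nonneg _) (gen_local ha hloc) hH] with N hN
    refine le_trans (le_of_eq ?_) hN
    apply Finset.sum_congr rfl
    intro n _
    rw [Real.norm_eq_abs]
    congr 2
    unfold win av
    rw [smul_eq_mul]
    congr 1
    apply Finset.sum_congr rfl
    intro j _
    rw [← Function.iterate_add_apply]
    show (if (∀ i : Fin k, a (n + j + i) = w i) then (1 : ℝ) else 0) = _
    by_cases h : ∀ i : Fin k, a (n + j + i) = w i
    · rw [if_pos h, Set.indicator_of_mem ((mem_cyl_iter w a (j + n)).2 (by rw [add_comm j n]; exact h))]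
    · rw [if_neg h, Set.indicator_of_notMem]
      intro h'
      rw [mem_cyl_iter, add_comm j n] at h'
      exact h h'

end Pool.Agent.U339.CE.Sym
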