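import Mathlib.Probability.Independence.ZeroOne
import Mathlib.Probability.Independence.InfinitePi
import Pool.Agent.U339.CE.Sym

set_option autoImplicit false

/-! # The subsequence selected by an almost constant property is again generic -/

namespace Pool.Agent.U339.CE.Sym

open MeasureTheory Finset Filter Topology

variable {A : Type*}

/-- consecutive selected indices -/
theorem nth_window {Q : ℕ → Prop} (hQ : {n | Q n}.Infinite) {i k : ℕ}
    (h : ∀ l < k, Q (Nat.nth Q i + l)) : ∀ l < k, Nat.nth Q (i + l) = Nat.nth Q i + l := by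
  classical
  have hc : ∀ l ≤ k, Nat.count Q (Nat.nth Q i + l) = i + l := by
    intro l
    induction l with
    | zero => intro _; simpa using Nat.count_nth_of_infinite hQ i
    | succ l ih =>
      intro hl
      rw [← add_assoc, Nat.count_succ, ih (by omega), if_pos (h l (by omega))]
      ring
  intro l hl
  rw [← hc l hl.le]
  exact Nat.nth_count (h l hl)

open Classical in
/-- the number of windows at which the selection has a gap is small -/
theorem gap_count {F : Set (ℕ → Prop)} (hF : AC F) {P : ℕ → Prop} (hP : P ∈ F) {δ : ℝ} (hδ : 0 < δ)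
    (hd : ∀ᶠ N : ℕ in atTop, δ * N ≤ #((Icc 1 N).filter P)) (k : ℕ) {ε : ℝ} (hε : 0 < ε) :
    ∀ᶠ K : ℕ in atTop, (#((range K).filter fun i => ∃ l < k, Nat.nth (fun n => 1 ≤ n ∧ P n) (i + l) ≠
      Nat.nth (fun n => 1 ≤ n ∧ P n) i + l) : ℝ) ≤ ε * K := by
  set Q : ℕ → Prop := fun n => 1 ≤ n ∧ P n with hQdef
  have hinf : {n | Q n}.Infinite := by
    intro hfin
    set A := hfin.toFinset with hA
    have h1 : ∀ N : ℕ, (#((Icc 1 N).filter P) : ℝ) ≤ #A := by
      intro N
      have : (Icc 1 N).filter P ⊆ A := by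
        intro n hn
        rw [mem_filter, Finset.mem_Icc] at hn
        rw [hA, Set.Finite.mem_toFinset]
        exact ⟨hn.1.1, hn.2⟩
      exact_mod_cast card_le_card this
    have h2 : Tendsto (fun N : ℕ => δ * (N : ℝ)) atTop atTop :=
      Tendsto.const_mul_atTop hδ tendsto_natCast_atTop_atTop
    obtain ⟨N, h3, h4⟩ := (hd.and (h2.eventually_gt_atTop (#A : ℝ))).exists
    linarith [h1 N]
  have hmono := Nat.nth_strictMono hinf
  have htop : Tendsto (fun K => Nat.nth Q K - 1) atTop atTop := by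
    have h1 : Tendsto (fun K : ℕ => K - 1) atTop atTop := tendsto_sub_atTop_nat 1
    exact tendsto_atTop_mono (fun K => Nat.sub_le_sub_right (hmono.le_apply) 1) h1
  have hbad : ∀ᶠ N : ℕ in atTop, ∀ l ∈ range k, (#(badF F l N) : ℝ) ≤ ε * δ / (k + 1) * N := by
    rw [Finset.eventually_all]
    intro l _
    exact hF l _ (by positivity)
  filter_upwards [htop.eventually (hd.and hbad), eventually_ge_atTop 1] with K ⟨g1, g2⟩ hK1
  set s := Nat.nth Q K with hs
  have hs1 : 1 ≤ s := (Nat.nth_mem_of_infinite hinf K).1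
  have e2 : (K : ℝ) = #((Icc 1 (s - 1)).filter P) := by
    have h5 := sum_nth hinf (fun _ => (1 : ℕ)) K
    simp only [Finset.sum_const, card_range, smul_eq_mul, mul_one] at h5
    rw [h5]
    norm_cast
    congr 1
    ext n
    simp only [mem_filter, mem_range, Finset.mem_Icc]
    constructor
    · rintro ⟨h1, h2, h3⟩; exact ⟨⟨h2, by omega⟩, h3⟩
    · rintro ⟨⟨h1, h2⟩, h3⟩; exact ⟨by omega, h1, h3⟩
  have h1 : #((range K).filter fun i => ∃ l < k, Nat.nth Q (i + l) ≠ Nat.nth Q i + l) ≤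
      ∑ l ∈ range k, #(badF F l (s - 1)) := by
    refine le_trans ?_ (card_biUnion_le (s := range k) (t := fun l => badF F l (s - 1)))
    refine Finset.card_le_card_of_injOn (Nat.nth Q) ?_ (hmono.injective.injOn)
    intro i hi
    rw [Finset.mem_coe, mem_filter, mem_range] at hi
    obtain ⟨hiK, hex⟩ := hi
    rw [Finset.mem_coe, mem_biUnion]
    by_contra hcon
    push Not at hcon
    have h2 : Q (Nat.nth Q i) := Nat.nth_mem_of_infinite hinf i
    have h21 : 1 ≤ Nat.nth Q i := h2.1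
    have h3 : Nat.nth Q i < s := hmono hiK
    have h4 : ∀ l < k, Q (Nat.nth Q i + l) := by
      intro l hl
      have h5 := hcon l (mem_range.2 hl)
      unfold badF at h5
      rw [mem_filter] at h5
      by_contra h6
      apply h5
      refine ⟨Finset.mem_Icc.2 ⟨h21, by omega⟩, P, hP, ?_⟩
      intro h7
      exact h6 ⟨by omega, h7.2 h2.2⟩
    obtain ⟨l, hl, hne⟩ := hex
    exact hne (nth_window hinf h4 l hl)
  have h2 : ((∑ l ∈ range k, #(badF F l (s - 1)) : ℕ) : ℝ) ≤ ε * δ * (s - 1 : ℕ) := by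
    push_cast
    refine (Finset.sum_le_sum g2).trans ?_
    rw [Finset.sum_const, card_range, nsmul_eq_mul]
    have h3 : (k : ℝ) * (ε * δ / (k + 1) * ((s - 1 : ℕ) : ℝ)) = (k / (k + 1)) * (ε * δ * ((s - 1 : ℕ) : ℝ)) := by
      ring
    rw [h3]
    have h4 : (k : ℝ) / (k + 1) ≤ 1 := by
      rw [div_le_one (by positivity)]; linarith
    have h5 : 0 ≤ ε * δ * ((s - 1 : ℕ) : ℝ) := by positivity
    calc (k : ℝ) / (k + 1) * (ε * δ * ((s - 1 : ℕ) : ℝ)) ≤ 1 * (ε * δ * ((s - 1 : ℕ) : ℝ)) :=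
          mul_le_mul_of_nonneg_right h4 h5
      _ = _ := one_mul _
  rw [← e2] at g1
  calc (#((range K).filter fun i => ∃ l < k, Nat.nth Q (i + l) ≠ Nat.nth Q i + l) : ℝ)
      ≤ ((∑ l ∈ range k, #(badF F l (s - 1)) : ℕ) : ℝ) := by exact_mod_cast h1
    _ ≤ ε * δ * (s - 1 : ℕ) := h2
    _ = ε * (δ * (s - 1 : ℕ)) := by ring
    _ ≤ ε * K := mul_le_mul_of_nonneg_left g1 hε.le

open Classical in
/-- **The selected sequence.** -/
theorem select {F : Set (ℕ → Prop)} (hF : AC F) {P : ℕ → Prop} (hP : P ∈ F) {δ : ℝ} (hδ : 0 < δ)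
    (hd : ∀ᶠ N : ℕ in atTop, δ * N ≤ #((Icc 1 N).filter P)) {a : ℕ → A} {k : ℕ} {w : Fin k → A} {c : ℝ}
    (hv : Reg (fun n => if (∀ i : Fin k, a (n + i) = w i) then (1 : ℝ) else 0) c) :
    Tendsto (fun N : ℕ => ({n : ℕ | n < N ∧ ∀ i : Fin k,
      a (Nat.nth (fun n => 1 ≤ n ∧ P n) (n + i)) = w i}.ncard : ℝ) / N) atTop (𝓝 c) := by
  set Q : ℕ → Prop := fun n => 1 ≤ n ∧ P n with hQdef
  have h1 := nth_lim (v := fun n => if (∀ i : Fin k, a (n + i) = w i) then (1 : ℝ) else 0) hδ hd
    (fun ε hε => by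
      filter_upwards [main_seq hF hv hε] with N hN
      exact hN P hP)
  rw [Metric.tendsto_atTop] at h1 ⊢
  intro ε hε
  obtain ⟨K₁, hK₁⟩ := h1 (ε / 2) (by positivity)
  obtain ⟨K₂, hK₂⟩ := eventually_atTop.1 (gap_count hF hP hδ hd k (show 0 < ε / 4 by positivity))
  refine ⟨max (max K₁ K₂) 1, fun K hK => ?_⟩
  have hKa : K₁ ≤ K := (le_max_left _ _).trans ((le_max_left _ _).trans hK)
  have hKb : K₂ ≤ K := (le_max_right _ _).trans ((le_max_left _ _).trans hK)
  have hKc : 1 ≤ K := (le_max_right _ _).trans hK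
  have hKR : (0 : ℝ) < K := by exact_mod_cast hKc
  have g1 := hK₁ K hKa
  have g2 := hK₂ K hKb
  have e1 : ({n : ℕ | n < K ∧ ∀ i : Fin k, a (Nat.nth Q (n + i)) = w i}.ncard : ℝ) =
      ∑ n ∈ range K, if (∀ i : Fin k, a (Nat.nth Q (n + i)) = w i) then (1 : ℝ) else 0 := by
    have : {n : ℕ | n < K ∧ ∀ i : Fin k, a (Nat.nth Q (n + i)) = w i} =
        (((range K).filter fun n => ∀ i : Fin k, a (Nat.nth Q (n + i)) = w i : Finset ℕ) : Set ℕ) := by
      ext n
      simp
    rw [this, Set.ncard_coe_finset, Finset.card_filter]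
    push_cast
    rfl
  have e2 : |∑ n ∈ range K, (if (∀ i : Fin k, a (Nat.nth Q (n + i)) = w i) then (1 : ℝ) else 0) -
      ∑ n ∈ range K, (if (∀ i : Fin k, a (Nat.nth Q n + i) = w i) then (1 : ℝ) else 0)| ≤ ε / 4 * K := by
    rw [← Finset.sum_sub_distrib]
    refine (Finset.abs_sum_le_sum_abs _ _).trans (le_trans ?_ g2)
    rw [Finset.card_filter]
    push_cast
    apply Finset.sum_le_sum
    intro i _
    by_cases hex : ∃ l < k, Nat.nth Q (i + l) ≠ Nat.nth Q i + l
    · rw [if_pos hex]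
      split_ifs <;> norm_num
    · rw [if_neg hex]
      push Not at hex
      have : (∀ j : Fin k, a (Nat.nth Q (i + j)) = w j) ↔ ∀ j : Fin k, a (Nat.nth Q i + j) = w j := by
        apply forall_congr'
        intro j
        rw [hex j j.2]
      simp only [this, sub_self, abs_zero, le_refl]
  rw [Real.dist_eq] at g1 ⊢
  rw [e1]
  rw [smul_eq_mul] at g1
  have e3 : (∑ n ∈ range K, (if (∀ i : Fin k, a (Nat.nth Q (n + i)) = w i) then (1 : ℝ) else 0)) / K - c =
      (∑ n ∈ range K, (if (∀ i : Fin k, a (Nat.nth Q (n + i)) = w i) then (1 : ℝ) else 0) -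
      ∑ n ∈ range K, (if (∀ i : Fin k, a (Nat.nth Q n + i) = w i) then (1 : ℝ) else 0)) / K +
      ((K : ℝ)⁻¹ * ∑ n ∈ range K, (if (∀ i : Fin k, a (Nat.nth Q n + i) = w i) then (1 : ℝ) else 0) - c) := by
    ring
  rw [e3]
  refine lt_of_le_of_lt (abs_add_le _ _) ?_
  have e4 : |(∑ n ∈ range K, (if (∀ i : Fin k, a (Nat.nth Q (n + i)) = w i) then (1 : ℝ) else 0) -
      ∑ n ∈ range K, (if (∀ i : Fin k, a (Nat.nth Q n + i) = w i) then (1 : ℝ) else 0)) / K| ≤ ε / 4 := by
    rw [abs_div, abs_of_pos hKR, div_le_iff₀ hKR]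
    exact e2
  linarith

/-! ### Bernoulli measures -/

variable [MeasurableSpace A]

theorem shift_mp (ν : Measure A) [IsProbabilityMeasure ν] :
    MeasurePreserving (shift : (ℕ → A) → (ℕ → A)) (Measure.infinitePi fun _ => ν)
      (Measure.infinitePi fun _ => ν) :=
  ⟨shift_meas, Measure.map_infinitePi_infinitePi_of_inj (P := fun _ : ℕ => ν)
    (f := fun n : ℕ => n + 1) (add_left_injective 1)⟩

theorem bernoulli_ergodic (ν : Measure A) [IsProbabilityMeasure ν] :
    Ergodic (shift : (ℕ → A) → (ℕ → A)) (Measure.infinitePi fun _ => ν) := by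
  refine ⟨shift_mp ν, ⟨fun s hs hinv => ?_⟩⟩
  have hind : ProbabilityTheory.iIndepFun (fun (i : ℕ) (x : ℕ → A) => x i) (Measure.infinitePi fun _ => ν) :=
    ProbabilityTheory.iIndepFun_infinitePi (P := fun _ : ℕ => ν) (X := fun _ => id) (fun _ => measurable_id)
  have hn : ∀ n : ℕ, shift^[n] ⁻¹' s = s := by
    intro n
    induction n with
    | zero => rfl
    | succ n ih =>
      rw [Function.iterate_succ, Set.preimage_comp, ih, hinv]
  have htail : MeasurableSet[limsup (fun n : ℕ => MeasurableSpace.comap (fun x : ℕ → A => x n) inferInstance)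
      atTop] s := by
    rw [Filter.limsup_eq_iInf_iSup_of_nat, MeasurableSpace.measurableSet_iInf]
    intro n
    rw [← hn n]
    have hm : Measurable[⨆ i, ⨆ (_ : i ≥ n), MeasurableSpace.comap (fun x : ℕ → A => x i) inferInstance,
        MeasurableSpace.pi] (shift^[n] : (ℕ → A) → (ℕ → A)) := by
      refine @measurable_pi_lambda _ _ _ (⨆ i, ⨆ (_ : i ≥ n), MeasurableSpace.comap (fun x : ℕ → A => x i)
        inferInstance) _ _ fun i => ?_
      have h1 : (fun x : ℕ → A => (shift^[n] x) i) = fun x => x (n + i) := by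
        funext x
        exact shift_iter x n i
      rw [h1]
      have h2 : MeasurableSpace.comap (fun x : ℕ → A => x (n + i)) inferInstance ≤
          ⨆ i, ⨆ (_ : i ≥ n), MeasurableSpace.comap (fun x : ℕ → A => x i) inferInstance :=
        le_iSup₂_of_le (n + i) (Nat.le_add_right n i) le_rfl
      exact (comap_measurable _).mono h2 le_rfl
    exact hm hs
  rcases ProbabilityTheory.measure_zero_or_one_of_measurableSet_limsup_atTop
    (fun n => (measurable_pi_apply n).comap_le) hind htail with h | h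
  · rw [Filter.eventuallyConst_set']
    left
    exact ae_eq_empty.2 h
  · rw [Filter.eventuallyConst_set']
    right
    exact ae_eq_univ.2 ((prob_compl_eq_zero_iff hs).2 h)

end Pool.Agent.U339.CE.Sym
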