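import Mathlib

set_option autoImplicit false

/-!
# Averages over sets which are constant on most windows

A family `𝓕` of properties of the integers is called almost constant if for every `j` and almost all `n`
all the properties `P` of the family satisfy `P (n + j) ↔ P n`. The averages of a sequence `v` of vectors
over the `n ≤ N` with `P n` are controlled, uniformly in `P`, by the averages of `v` over windows.
-/

namespace Pool.Agent.U339.CE

open Finset Filter Topology

variable {E : Type*} [NormedAddCommGroup E] [NormedSpace ℝ E]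

open Classical in
/-- the `n ≤ N` at which some property of the family is not constant along the shift `j` -/
noncomputable def badF (F : Set (ℕ → Prop)) (j N : ℕ) : Finset ℕ :=
  {n ∈ Icc 1 N | ∃ P ∈ F, ¬ (P (n + j) ↔ P n)}

/-- the family is almost constant -/
def AC (F : Set (ℕ → Prop)) : Prop :=
  ∀ j : ℕ, ∀ ε : ℝ, 0 < ε → ∀ᶠ N : ℕ in atTop, (#(badF F j N) : ℝ) ≤ ε * N

/-- the mean over the window of length `H` -/
noncomputable def win (w : ℕ → E) (H n : ℕ) : E := (H : ℝ)⁻¹ • ∑ j ∈ range H, w (n + j)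

/-- `v` is, up to a small error in the mean, bounded with window means close to `c` -/
def Reg (v : ℕ → E) (c : E) : Prop :=
  ∀ ε : ℝ, 0 < ε → ∃ w : ℕ → E, (∃ M : ℝ, ∀ n, ‖w n‖ ≤ M) ∧
    (∀ᶠ N : ℕ in atTop, ∑ n ∈ Icc 1 N, ‖v n - w n‖ ≤ ε * N) ∧
    ∃ H : ℕ, 1 ≤ H ∧ ∀ᶠ N : ℕ in atTop, ∑ n ∈ Icc 1 N, ‖win w H n - c‖ ≤ ε * N

omit [NormedSpace ℝ E] in
theorem tele_one (u : ℕ → E) (j N : ℕ) :
    ∑ n ∈ Icc 1 N, (u (n + j) - u (n + (j + 1))) = u (1 + j) - u (N + 1 + j) := by
  induction N with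
  | zero => simp
  | succ N ih =>
    rw [Finset.sum_Icc_succ_top (by omega), ih]
    rw [show N + 1 + (j + 1) = N + 1 + 1 + j by ring]
    abel

omit [NormedSpace ℝ E] in
theorem tele (u : ℕ → E) {M : ℝ} (hM : ∀ n, ‖u n‖ ≤ M) (N j : ℕ) :
    ‖∑ n ∈ Icc 1 N, u n - ∑ n ∈ Icc 1 N, u (n + j)‖ ≤ 2 * j * M := by
  induction j with
  | zero => simp
  | succ j ih =>
    have h1 : ∑ n ∈ Icc 1 N, u (n + j) - ∑ n ∈ Icc 1 N, u (n + (j + 1)) = u (1 + j) - u (N + 1 + j) := by
      rw [← Finset.sum_sub_distrib]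
      exact tele_one u j N
    have h2 : ∑ n ∈ Icc 1 N, u n - ∑ n ∈ Icc 1 N, u (n + (j + 1)) =
        (∑ n ∈ Icc 1 N, u n - ∑ n ∈ Icc 1 N, u (n + j)) + (u (1 + j) - u (N + 1 + j)) := by
      rw [← h1]; abel
    rw [h2]
    refine (norm_add_le _ _).trans ?_
    have h3 : ‖u (1 + j) - u (N + 1 + j)‖ ≤ M + M := (norm_sub_le _ _).trans (add_le_add (hM _) (hM _))
    push_cast
    linarith

omit [NormedSpace ℝ E] in
open Classical in
theorem shift_bound {F : Set (ℕ → Prop)} {P : ℕ → Prop} (hP : P ∈ F) (w : ℕ → E) {M : ℝ}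
    (hM : ∀ n, ‖w n‖ ≤ M) (N j : ℕ) :
    ‖∑ n ∈ Icc 1 N, (if P n then w n else 0) - ∑ n ∈ Icc 1 N, (if P n then w (n + j) else 0)‖ ≤
      2 * j * M + #(badF F j N) * M := by
  have hM0 : 0 ≤ M := (norm_nonneg _).trans (hM 0)
  have h1 := tele (fun n => if P n then w n else 0) (M := M) (fun n => by
    by_cases h : P n
    · simp only [if_pos h]; exact hM n
    · simp only [if_neg h]; simpa using hM0) N j
  have h2 : ‖∑ n ∈ Icc 1 N, (if P (n + j) then w (n + j) else 0) -
      ∑ n ∈ Icc 1 N, (if P n then w (n + j) else 0)‖ ≤ #(badF F j N) * M := by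
    rw [← Finset.sum_sub_distrib]
    have h3 : ∀ n ∈ Icc 1 N, ‖(if P (n + j) then w (n + j) else 0) - (if P n then w (n + j) else 0)‖ ≤
        if n ∈ badF F j N then M else 0 := by
      intro n hn
      by_cases hb : P (n + j) ↔ P n
      · have : (if P (n + j) then w (n + j) else 0) - (if P n then w (n + j) else 0) = 0 := by
          by_cases h : P n
          · simp only [if_pos h, if_pos (hb.2 h), sub_self]
          · simp only [if_neg h, if_neg (fun h' => h (hb.1 h')), sub_self]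
        rw [this, norm_zero]
        by_cases hm : n ∈ badF F j N
        · simp only [if_pos hm]; exact hM0
        · simp only [if_neg hm]; exact le_rfl
      · have hm : n ∈ badF F j N := by
          unfold badF
          rw [mem_filter]
          exact ⟨hn, P, hP, hb⟩
        simp only [if_pos hm]
        by_cases h : P n
        · have h' : ¬ P (n + j) := fun h' => hb ⟨fun _ => h, fun _ => h'⟩
          simp only [if_pos h, if_neg h', zero_sub, norm_neg]
          exact hM _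
        · have h' : P (n + j) := by
            by_contra h'
            exact hb ⟨fun h2 => (h' h2).elim, fun h2 => (h h2).elim⟩
          simp only [if_neg h, if_pos h', sub_zero]
          exact hM _
    refine (norm_sum_le _ _).trans ((Finset.sum_le_sum h3).trans ?_)
    rw [← Finset.sum_filter, Finset.sum_const, nsmul_eq_mul]
    apply mul_le_mul_of_nonneg_right _ hM0
    have : (Icc 1 N).filter (fun n => n ∈ badF F j N) ⊆ badF F j N := by
      intro n hn
      exact (mem_filter.1 hn).2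
    exact_mod_cast card_le_card this
  have h4 : ∑ n ∈ Icc 1 N, (if P n then w n else 0) - ∑ n ∈ Icc 1 N, (if P n then w (n + j) else 0) =
      (∑ n ∈ Icc 1 N, (if P n then w n else 0) - ∑ n ∈ Icc 1 N, (if P (n + j) then w (n + j) else 0)) +
      (∑ n ∈ Icc 1 N, (if P (n + j) then w (n + j) else 0) -
      ∑ n ∈ Icc 1 N, (if P n then w (n + j) else 0)) := by abel
  rw [h4]
  exact (norm_add_le _ _).trans (add_le_add h1 h2)

open Classical in
/-- **The main estimate**, uniform in the property. -/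
theorem main_seq {F : Set (ℕ → Prop)} (hF : AC F) {v : ℕ → E} {c : E} (hv : Reg v c) {ε : ℝ} (hε : 0 < ε) :
    ∀ᶠ N : ℕ in atTop, ∀ P ∈ F, ‖∑ n ∈ (Icc 1 N).filter P, (v n - c)‖ ≤ ε * N := by
  obtain ⟨w, ⟨M, hM⟩, h1, H, hH, h2⟩ := hv (ε / 4) (by positivity)
  have hM0 : 0 ≤ M := (norm_nonneg _).trans (hM 0)
  have hbad : ∀ᶠ N : ℕ in atTop, ∀ j ∈ range H, (#(badF F j N) : ℝ) ≤ ε / (4 * (M + 1)) * N := by
    rw [Finset.eventually_all]
    intro j _
    exact hF j _ (by positivity)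
  have hlarge : ∀ᶠ N : ℕ in atTop, 2 * (H : ℝ) * M ≤ ε / 4 * N := by
    have : Tendsto (fun N : ℕ => ε / 4 * (N : ℝ)) atTop atTop :=
      Tendsto.const_mul_atTop (by positivity) tendsto_natCast_atTop_atTop
    exact this.eventually_ge_atTop _
  filter_upwards [h1, h2, hbad, hlarge] with N g1 g2 g3 g4 P hP
  have hH0 : (0 : ℝ) < H := by exact_mod_cast hH
  rw [Finset.sum_filter]
  -- decomposition
  have e1 : ∑ n ∈ Icc 1 N, (if P n then v n - c else 0) =
      ∑ n ∈ Icc 1 N, (if P n then v n - w n else 0) +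
      (∑ n ∈ Icc 1 N, (if P n then w n else 0) - ∑ n ∈ Icc 1 N, (if P n then win w H n else 0)) +
      ∑ n ∈ Icc 1 N, (if P n then win w H n - c else 0) := by
    rw [← Finset.sum_sub_distrib, ← Finset.sum_add_distrib, ← Finset.sum_add_distrib]
    apply Finset.sum_congr rfl
    intro n _
    by_cases h : P n
    · simp only [if_pos h]; abel
    · simp only [if_neg h]; abel
  have b1 : ‖∑ n ∈ Icc 1 N, (if P n then v n - w n else 0)‖ ≤ ε / 4 * N := by
    refine (norm_sum_le _ _).trans ((Finset.sum_le_sum fun n _ => ?_).trans g1)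
    split_ifs
    · exact le_rfl
    · rw [norm_zero]; exact norm_nonneg _
  have b3 : ‖∑ n ∈ Icc 1 N, (if P n then win w H n - c else 0)‖ ≤ ε / 4 * N := by
    refine (norm_sum_le _ _).trans ((Finset.sum_le_sum fun n _ => ?_).trans g2)
    split_ifs
    · exact le_rfl
    · rw [norm_zero]; exact norm_nonneg _
  have b2 : ‖∑ n ∈ Icc 1 N, (if P n then w n else 0) - ∑ n ∈ Icc 1 N, (if P n then win w H n else 0)‖ ≤
      ε / 4 * N + ε / 4 * N := by
    have e2 : ∑ n ∈ Icc 1 N, (if P n then w n else 0) - ∑ n ∈ Icc 1 N, (if P n then win w H n else 0) =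
        (H : ℝ)⁻¹ • ∑ j ∈ range H, (∑ n ∈ Icc 1 N, (if P n then w n else 0) -
          ∑ n ∈ Icc 1 N, (if P n then w (n + j) else 0)) := by
      rw [Finset.sum_sub_distrib, Finset.sum_const, card_range, smul_sub, ← Nat.cast_smul_eq_nsmul ℝ,
        smul_smul, inv_mul_cancel₀ hH0.ne', one_smul, Finset.sum_comm, Finset.smul_sum]
      congr 1
      apply Finset.sum_congr rfl
      intro n _
      by_cases h : P n
      · simp only [if_pos h]; rfl
      · simp only [if_neg h]; simp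
    rw [e2, norm_smul, norm_inv, Real.norm_of_nonneg hH0.le]
    have h5 : ‖∑ j ∈ range H, (∑ n ∈ Icc 1 N, (if P n then w n else 0) -
          ∑ n ∈ Icc 1 N, (if P n then w (n + j) else 0))‖ ≤ ∑ j ∈ range H, (ε / 4 * N + ε / 4 * N) := by
      refine (norm_sum_le _ _).trans (Finset.sum_le_sum fun j hj => ?_)
      refine (shift_bound hP w hM N j).trans (add_le_add ?_ ?_)
      · refine le_trans ?_ g4
        have : (j : ℝ) ≤ H := by exact_mod_cast (Finset.mem_range.1 hj).le
        nlinarith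
      · have h6 := g3 j hj
        calc (#(badF F j N) : ℝ) * M ≤ ε / (4 * (M + 1)) * N * M := mul_le_mul_of_nonneg_right h6 hM0
          _ = ε / 4 * N * (M / (M + 1)) := by field_simp
          _ ≤ ε / 4 * N * 1 := by
              apply mul_le_mul_of_nonneg_left _ (by positivity)
              rw [div_le_one (by positivity)]; linarith
          _ = ε / 4 * N := mul_one _
    rw [Finset.sum_const, card_range, nsmul_eq_mul] at h5
    calc (H : ℝ)⁻¹ * _ ≤ (H : ℝ)⁻¹ * (H * (ε / 4 * N + ε / 4 * N)) :=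
          mul_le_mul_of_nonneg_left h5 (by positivity)
      _ = ε / 4 * N + ε / 4 * N := by rw [← mul_assoc, inv_mul_cancel₀ hH0.ne', one_mul]
  rw [e1]
  refine (norm_add_le _ _).trans ?_
  have := norm_add_le (∑ n ∈ Icc 1 N, (if P n then v n - w n else 0))
    (∑ n ∈ Icc 1 N, (if P n then w n else 0) - ∑ n ∈ Icc 1 N, (if P n then win w H n else 0))
  linarith

/-! ### Enumeration -/

open Classical in
theorem sum_nth {Q : ℕ → Prop} (hQ : {n | Q n}.Infinite) {G : Type*} [AddCommMonoid G] (f : ℕ → G) (K : ℕ) :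
    ∑ i ∈ range K, f (Nat.nth Q i) = ∑ n ∈ (range (Nat.nth Q K)).filter Q, f n := by
  induction K with
  | zero =>
    rw [Finset.range_zero, Finset.sum_empty]
    symm
    apply Finset.sum_eq_zero
    intro n hn
    rw [mem_filter, mem_range] at hn
    have h1 : Nat.nth Q 0 ≤ n := by
      rw [Nat.nth_zero]
      exact Nat.sInf_le hn.2
    omega
  | succ K ih =>
    rw [Finset.sum_range_succ, ih, Nat.filter_range_nth_eq_insert_of_infinite hQ,
      Finset.sum_insert (by simp), add_comm]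

open Classical in
/-- From the counting form to the averages along the enumeration of the set. -/
theorem nth_lim {P : ℕ → Prop} {v : ℕ → E} {c : E} {δ : ℝ} (hδ : 0 < δ)
    (hd : ∀ᶠ N : ℕ in atTop, δ * N ≤ #((Icc 1 N).filter P))
    (h : ∀ ε : ℝ, 0 < ε → ∀ᶠ N : ℕ in atTop, ‖∑ n ∈ (Icc 1 N).filter P, (v n - c)‖ ≤ ε * N) :
    Tendsto (fun K : ℕ => (K : ℝ)⁻¹ • ∑ i ∈ range K, v (Nat.nth (fun n => 1 ≤ n ∧ P n) i)) atTop (𝓝 c) := by
  have hinf : {n | 1 ≤ n ∧ P n}.Infinite := by
    intro hfin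
    set A := hfin.toFinset with hA
    have h1 : ∀ N : ℕ, (#((Icc 1 N).filter P) : ℝ) ≤ #A := by
      intro N
      have : (Icc 1 N).filter P ⊆ A := by
        intro n hn
        rw [mem_filter, Finset.mem_Icc] at hn
        rw [hA, Set.Finite.mem_toFinset]
        exact ⟨hn.1.1, hn.2⟩
      exact_mod_cast card_le_card this
    have h2 : Tendsto (fun N : ℕ => δ * (N : ℝ)) atTop atTop :=
      Tendsto.const_mul_atTop hδ tendsto_natCast_atTop_atTop
    obtain ⟨N, h3, h4⟩ := (hd.and (h2.eventually_gt_atTop (#A : ℝ))).exists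
    linarith [h1 N]
  rw [Metric.tendsto_atTop]
  intro ε hε
  have hmono := Nat.nth_strictMono hinf
  have htop : Tendsto (fun K => Nat.nth (fun n => 1 ≤ n ∧ P n) K - 1) atTop atTop := by
    have h1 : Tendsto (fun K : ℕ => K - 1) atTop atTop := tendsto_sub_atTop_nat 1
    exact tendsto_atTop_mono (fun K => Nat.sub_le_sub_right (hmono.le_apply) 1) h1
  obtain ⟨K₀, hK₀⟩ := eventually_atTop.1 ((htop.eventually (hd.and (h (ε * δ / 2) (by positivity)))).and
    (eventually_ge_atTop 1))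
  refine ⟨K₀, fun K hK => ?_⟩
  obtain ⟨⟨h1, h2⟩, hK1⟩ := hK₀ K hK
  have hKR : (0 : ℝ) < K := by exact_mod_cast hK1
  set s := Nat.nth (fun n => 1 ≤ n ∧ P n) K with hs
  have hs1 : 1 ≤ s := (Nat.nth_mem_of_infinite hinf K).1
  have e1 : ∑ i ∈ range K, (v (Nat.nth (fun n => 1 ≤ n ∧ P n) i) - c) =
      ∑ n ∈ (Icc 1 (s - 1)).filter P, (v n - c) := by
    refine (sum_nth hinf (fun n => v n - c) K).trans (Finset.sum_congr ?_ fun _ _ => rfl)
    ext n
    simp only [mem_filter, mem_range, Finset.mem_Icc]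
    constructor
    · rintro ⟨h1, h2, h3⟩; exact ⟨⟨h2, by omega⟩, h3⟩
    · rintro ⟨⟨h1, h2⟩, h3⟩; exact ⟨by omega, h1, h3⟩
  have e2 : (K : ℝ) = #((Icc 1 (s - 1)).filter P) := by
    have h5 := sum_nth hinf (fun _ => (1 : ℕ)) K
    simp only [Finset.sum_const, card_range, smul_eq_mul, mul_one] at h5
    rw [h5]
    norm_cast
    congr 1
    ext n
    simp only [mem_filter, mem_range, Finset.mem_Icc]
    constructor
    · rintro ⟨h1, h2, h3⟩; exact ⟨⟨h2, by omega⟩, h3⟩
    · rintro ⟨⟨h1, h2⟩, h3⟩; exact ⟨by omega, h1, h3⟩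
  have e3 : (K : ℝ)⁻¹ • ∑ i ∈ range K, v (Nat.nth (fun n => 1 ≤ n ∧ P n) i) - c =
      (K : ℝ)⁻¹ • ∑ n ∈ (Icc 1 (s - 1)).filter P, (v n - c) := by
    rw [← e1, Finset.sum_sub_distrib, Finset.sum_const, card_range, smul_sub, ← Nat.cast_smul_eq_nsmul ℝ,
      smul_smul, inv_mul_cancel₀ hKR.ne', one_smul]
  rw [dist_eq_norm, e3, norm_smul, norm_inv, Real.norm_of_nonneg hKR.le]
  rw [← e2] at h1
  have h3 : ε * δ / 2 * ((s - 1 : ℕ) : ℝ) ≤ ε / 2 * K := by
    have := mul_le_mul_of_nonneg_left h1 (by positivity : 0 ≤ ε / 2)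
    linarith
  calc (K : ℝ)⁻¹ * _ ≤ (K : ℝ)⁻¹ * (ε / 2 * K) := mul_le_mul_of_nonneg_left (h2.trans h3) (by positivity)
    _ = ε / 2 := by field_simp
    _ < ε := by linarith

/-- Mean ergodic theorem: the orbit of a vector under a power bounded operator is regular. -/
theorem reg_operator (U : E →L[ℝ] E) {C : ℝ} (hC : ∀ n : ℕ, ‖U ^ n‖ ≤ C) {x y : E}
    (hxy : Tendsto (fun N : ℕ => (N : ℝ)⁻¹ • ∑ n ∈ range N, (U ^ n) x) atTop (𝓝 y)) :
    Reg (fun n => (U ^ n) x) y := by
  have hC0 : 0 ≤ C := (norm_nonneg _).trans (hC 0)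
  -- the limit is fixed
  have hfix : U y = y := by
    have h1 : Tendsto (fun N : ℕ => U ((N : ℝ)⁻¹ • ∑ n ∈ range N, (U ^ n) x)) atTop (𝓝 (U y)) :=
      (U.continuous.tendsto y).comp hxy
    have h2 : Tendsto (fun N : ℕ => U ((N : ℝ)⁻¹ • ∑ n ∈ range N, (U ^ n) x) -
        (N : ℝ)⁻¹ • ∑ n ∈ range N, (U ^ n) x) atTop (𝓝 0) := by
      have h3 : ∀ N : ℕ, U ((N : ℝ)⁻¹ • ∑ n ∈ range N, (U ^ n) x) -
          (N : ℝ)⁻¹ • ∑ n ∈ range N, (U ^ n) x = (N : ℝ)⁻¹ • ((U ^ N) x - x) := by
        intro N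
        rw [map_smul, ← smul_sub, map_sum, ← Finset.sum_sub_distrib]
        congr 1
        have h4 : ∀ n : ℕ, U ((U ^ n) x) - (U ^ n) x = (U ^ (n + 1)) x - (U ^ n) x := by
          intro n
          rw [pow_succ']
          rfl
        simp only [h4]
        rw [Finset.sum_range_sub (fun n => (U ^ n) x)]
        simp
      have h5 : Tendsto (fun N : ℕ => (N : ℝ)⁻¹ * ((C + 1) * ‖x‖)) atTop (𝓝 0) := by
        have := (tendsto_inv_atTop_nhds_zero_nat (𝕜 := ℝ)).mul_const ((C + 1) * ‖x‖)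
        simpa using this
      refine squeeze_zero_norm (fun N => ?_) h5
      rw [h3 N, norm_smul, norm_inv, Real.norm_of_nonneg (Nat.cast_nonneg N)]
      apply mul_le_mul_of_nonneg_left _ (by positivity)
      calc ‖(U ^ N) x - x‖ ≤ ‖(U ^ N) x‖ + ‖x‖ := norm_sub_le _ _
        _ ≤ C * ‖x‖ + ‖x‖ := by
            have := (U ^ N).le_opNorm x
            have := mul_le_mul_of_nonneg_right (hC N) (norm_nonneg x)
            linarith
        _ = (C + 1) * ‖x‖ := by ring
    have h6 := h1.sub hxy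
    have := tendsto_nhds_unique h6 h2
    exact sub_eq_zero.1 this
  have hfixn : ∀ n : ℕ, (U ^ n) y = y := by
    intro n
    induction n with
    | zero => simp
    | succ n ih =>
      rw [pow_succ]
      show (U ^ n) (U y) = y
      rw [hfix, ih]
  intro ε hε
  refine ⟨fun n => (U ^ n) x, ⟨C * ‖x‖, fun n => ?_⟩, ?_, ?_⟩
  · exact ((U ^ n).le_opNorm x).trans (mul_le_mul_of_nonneg_right (hC n) (norm_nonneg x))
  · filter_upwards with N
    simp only [sub_self, norm_zero, Finset.sum_const_zero]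
    positivity
  · obtain ⟨H, hH⟩ := ((Metric.tendsto_atTop.1 hxy (ε / (C + 1)) (by positivity)))
    refine ⟨H + 1, by omega, ?_⟩
    have h1 := hH (H + 1) (by omega)
    rw [dist_eq_norm] at h1
    filter_upwards with N
    have h2 : ∀ n ∈ Icc 1 N, ‖win (fun n => (U ^ n) x) (H + 1) n - y‖ ≤ ε := by
      intro n _
      have h3 : win (fun n => (U ^ n) x) (H + 1) n - y =
          (U ^ n) (((H + 1 : ℕ) : ℝ)⁻¹ • ∑ i ∈ range (H + 1), (U ^ i) x - y) := by
        rw [map_sub, map_smul, map_sum, hfixn]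
        unfold win
        congr 2
        apply Finset.sum_congr rfl
        intro i _
        show (U ^ (n + i)) x = (U ^ n) ((U ^ i) x)
        rw [pow_add]
        rfl
      rw [h3]
      calc ‖(U ^ n) (((H + 1 : ℕ) : ℝ)⁻¹ • ∑ i ∈ range (H + 1), (U ^ i) x - y)‖
          ≤ ‖U ^ n‖ * ‖((H + 1 : ℕ) : ℝ)⁻¹ • ∑ i ∈ range (H + 1), (U ^ i) x - y‖ := (U ^ n).le_opNorm _
        _ ≤ C * (ε / (C + 1)) := mul_le_mul (hC n) h1.le (norm_nonneg _) hC0
        _ ≤ ε := by
            rw [← mul_div_assoc, div_le_iff₀ (by positivity)]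
            nlinarith
    calc ∑ n ∈ Icc 1 N, ‖win (fun n => (U ^ n) x) (H + 1) n - y‖ ≤ ∑ n ∈ Icc 1 N, ε := Finset.sum_le_sum h2
      _ = ε * N := by rw [Finset.sum_const, Nat.card_Icc, nsmul_eq_mul, Nat.add_sub_cancel, mul_comm]

end Pool.Agent.U339.CE
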