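import Pool.Agent.H499R2.CO.F
import Pool.Agent.H499R2.NDCor
import Pool.Agent.U339.CE.Seq

set_option autoImplicit false

/-! # The sets invariant under the Collatz map are almost constant, and have positive density -/

namespace Pool.Agent.U339.CE

open Finset Filter Topology
open Pool.Agent.H499R2.CO (Tz coalT_count)

/-- The Collatz map. -/
def T (n : ℕ) : ℕ := if n % 2 = 0 then n / 2 else 3 * n + 1

/-- `P` is invariant under the Collatz map and its inverse, as a property of positive integers. -/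
def Invariant (P : ℕ → Prop) : Prop := ∀ n : ℕ, 1 ≤ n → (P n ↔ P (T n))

theorem Invariant.not {P : ℕ → Prop} (h : Invariant P) : Invariant (fun n => ¬ P n) :=
  fun n hn => not_congr (h n hn)

theorem T_pos {n : ℕ} (hn : 1 ≤ n) : 1 ≤ T n := by
  unfold T
  split_ifs <;> omega

theorem inv_Tn {P : ℕ → Prop} (hP : Invariant P) {n : ℕ} (hn : 1 ≤ n) :
    P n ↔ P (Pool.Agent.H499R2.ND.Tn n) := by
  have h1 := hP n hn
  unfold T at h1
  show P n ↔ P (if n % 2 = 0 then n / 2 else (3 * n + 1) / 2)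
  by_cases h : n % 2 = 0
  · rw [if_pos h]; rwa [if_pos h] at h1
  · rw [if_neg h] at h1
    rw [if_neg h]
    have h2 := hP (3 * n + 1) (by omega)
    unfold T at h2
    rw [if_pos (by omega)] at h2
    rw [h1, h2]

theorem Tn_pos {n : ℕ} (hn : 1 ≤ n) : 1 ≤ Pool.Agent.H499R2.ND.Tn n := by
  show 1 ≤ (if n % 2 = 0 then n / 2 else (3 * n + 1) / 2)
  split_ifs <;> omega

theorem inv_iter {P : ℕ → Prop} (hP : Invariant P) (t : ℕ) :
    ∀ n : ℕ, 1 ≤ n → (P n ↔ P (Pool.Agent.H499R2.ND.Tn^[t] n)) := by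
  induction t with
  | zero => intro n _; rfl
  | succ t ih =>
    intro n hn
    rw [Function.iterate_succ_apply, ← ih _ (Tn_pos hn)]
    exact inv_Tn hP hn

theorem Tz_cast (n : ℕ) : Tz 1 (n : ℤ) = (Pool.Agent.H499R2.ND.Tn n : ℕ) := by
  unfold Tz
  show (if (n : ℤ) % 2 = 0 then (n : ℤ) / 2 else (3 * n + 1) / 2) =
    ((if n % 2 = 0 then n / 2 else (3 * n + 1) / 2 : ℕ) : ℤ)
  by_cases h : n % 2 = 0
  · rw [if_pos (by omega), if_pos h]; omega
  · rw [if_neg (by omega), if_neg h]; omega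

theorem Tz_iter_cast (t : ℕ) : ∀ n : ℕ, (Tz 1)^[t] (n : ℤ) = ((Pool.Agent.H499R2.ND.Tn^[t] n : ℕ) : ℤ) := by
  induction t with
  | zero => intro n; rfl
  | succ t ih =>
    intro n
    rw [Function.iterate_succ_apply, Function.iterate_succ_apply, Tz_cast, ih]

/-- The invariant properties are almost constant. -/
theorem AC_invariant : AC {P : ℕ → Prop | Invariant P} := by
  classical
  intro j ε hε
  obtain ⟨k, hk⟩ := coalT_count (d := 1) (by norm_num) (j : ℤ) (show 0 < ε / 2 by positivity)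
  have hlarge : ∀ᶠ N : ℕ in atTop, ε / 2 * ((2 : ℝ) ^ k + 1) ≤ ε / 2 * N := by
    have : Tendsto (fun N : ℕ => ε / 2 * (N : ℝ)) atTop atTop :=
      Tendsto.const_mul_atTop (by positivity) tendsto_natCast_atTop_atTop
    exact this.eventually_ge_atTop _
  filter_upwards [hlarge] with N hN
  have h1 := hk N
  have h2 : badF {P : ℕ → Prop | Invariant P} j N ⊆
      {n ∈ Icc 1 N | ¬ ∃ t ≤ k, (Tz 1)^[t] ((n : ℕ) : ℤ) = (Tz 1)^[t] ((n : ℤ) + 1 * j)} := by
    intro n hn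
    unfold badF at hn
    rw [mem_filter] at hn ⊢
    obtain ⟨h3, P, hP, hbad⟩ := hn
    refine ⟨h3, ?_⟩
    rintro ⟨t, -, ht⟩
    apply hbad
    have hn1 : 1 ≤ n := (Finset.mem_Icc.1 h3).1
    have e1 : ((n : ℤ) + 1 * j) = ((n + j : ℕ) : ℤ) := by push_cast; ring
    rw [e1, Tz_iter_cast, Tz_iter_cast] at ht
    have ht' : Pool.Agent.H499R2.ND.Tn^[t] n = Pool.Agent.H499R2.ND.Tn^[t] (n + j) := by exact_mod_cast ht
    have hP' : Invariant P := hP
    rw [inv_iter hP' t (n + j) (by omega), ← ht', ← inv_iter hP' t n hn1]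
  have h3 : (#(badF {P : ℕ → Prop | Invariant P} j N) : ℝ) ≤ ε / 2 * (N + 2 ^ k + 1) := by
    refine le_trans ?_ h1
    exact_mod_cast card_le_card h2
  linarith

open Classical in
theorem ncard_eq (P : ℕ → Prop) (N : ℕ) : {n : ℕ | 1 ≤ n ∧ n ≤ N ∧ P n}.ncard = #((Icc 1 N).filter P) := by
  rw [← Set.ncard_coe_finset]
  congr 1
  ext n
  simp only [Set.mem_ofPred_eq, coe_filter, Finset.mem_Icc, and_assoc]

open Classical in
/-- A nonempty invariant property has positive density. -/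
theorem dens_pos {P : ℕ → Prop} (hP : Invariant P) (hne : ∃ n, 1 ≤ n ∧ P n) :
    ∃ δ : ℝ, 0 < δ ∧ ∀ᶠ N : ℕ in atTop, δ * N ≤ #((Icc 1 N).filter P) := by
  obtain ⟨l, -, -, h1, h2, -⟩ := Pool.Agent.H499R2.ND.nat_density (P := P) (fun n hn => inv_Tn hP hn)
  have hl := h2.2 hne
  refine ⟨l / 2, by positivity, ?_⟩
  filter_upwards [h1.eventually (lt_mem_nhds (by linarith : l / 2 < l)), eventually_ge_atTop 1] with N h3 h4
  have hN : (0 : ℝ) < N := by exact_mod_cast h4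
  rw [ncard_eq, lt_div_iff₀ hN] at h3
  exact h3.le

variable {E : Type*} [NormedAddCommGroup E] [NormedSpace ℝ E]

open Classical in
/-- The uniform form. -/
theorem unif {v : ℕ → E} {c : E} (hv : Reg v c) {ε : ℝ} (hε : 0 < ε) :
    ∃ N₀ : ℕ, ∀ P : ℕ → Prop, Invariant P → ∀ N ≥ N₀,
      ‖∑ n ∈ (Icc 1 N).filter P, v n - (#((Icc 1 N).filter P) : ℝ) • c‖ ≤ ε * N := by
  obtain ⟨N₀, hN₀⟩ := eventually_atTop.1 (main_seq AC_invariant hv hε)
  refine ⟨N₀, fun P hP N hN => ?_⟩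
  have h1 := hN₀ N hN P hP
  rwa [Finset.sum_sub_distrib, Finset.sum_const, ← Nat.cast_smul_eq_nsmul ℝ] at h1

/-- The averages along a nonempty invariant set. -/
theorem lim {v : ℕ → E} {c : E} (hv : Reg v c) {P : ℕ → Prop} (hP : Invariant P) (hne : ∃ n, 1 ≤ n ∧ P n) :
    Tendsto (fun K : ℕ => (K : ℝ)⁻¹ • ∑ i ∈ range K, v (Nat.nth (fun n => 1 ≤ n ∧ P n) i)) atTop (𝓝 c) := by
  classical
  obtain ⟨δ, hδ, hd⟩ := dens_pos hP hne
  refine nth_lim hδ hd fun ε hε => ?_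
  filter_upwards [main_seq AC_invariant hv hε] with N hN
  exact hN P hP

open Classical in
theorem crit_aux {v : ℕ → ℝ} {c : ℝ} (hc : 0 < c) (hv : Reg v c) {Q : ℕ → Prop}
    (hQ : Invariant Q) (hne : ∃ n, 1 ≤ n ∧ Q n) (hfr : ∀ ε : ℝ, 0 < ε → ∃ᶠ N : ℕ in atTop,
      ∑ n ∈ (Icc 1 N).filter Q, v n ≤ ε * N) : False := by
  obtain ⟨δ, hδ, hd⟩ := dens_pos hQ hne
  have h1 := main_seq AC_invariant hv (show 0 < c * δ / 4 by positivity)
  have h2 := hfr (c * δ / 4) (by positivity)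
  obtain ⟨N, g2, g1, g3, g4⟩ := (h2.and_eventually (h1.and (hd.and (eventually_ge_atTop 1)))).exists
  have g5 := g1 _ hQ
  rw [Finset.sum_sub_distrib, Finset.sum_const, nsmul_eq_mul, Real.norm_eq_abs, abs_le] at g5
  have hN : (0 : ℝ) < N := by exact_mod_cast g4
  have g6 := mul_le_mul_of_nonneg_right g3 hc.le
  have g7 : 0 < c * δ * N := by positivity
  nlinarith [g5.1]

/-- The criterion. -/
theorem crit {v : ℕ → ℝ} {c : ℝ} (hc : 0 < c) (hv : Reg v c) {P : ℕ → Prop} [DecidablePred P]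
    (hP : Invariant P) (hfr : ∀ ε : ℝ, 0 < ε → ∃ᶠ N : ℕ in atTop,
      ∑ n ∈ (Icc 1 N).filter (fun n => ¬ P n), v n ≤ ε * N) : ∀ n, 1 ≤ n → P n := by
  by_contra hcon
  push Not at hcon
  exact crit_aux hc hv hP.not hcon (fun ε hε => by convert hfr ε hε)

end Pool.Agent.U339.CE
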