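import Pool.Agent.R243.Erg.Max
import Pool.Agent.U339.CE.Seq

set_option autoImplicit false

/-! # The orbits of almost all points are regular -/

namespace Pool.Agent.U339.CE

open MeasureTheory Finset Filter Topology Pool.Agent.R243.Erg

variable {Y : Type*} [MeasurableSpace Y] {ρ : Measure Y} {R : Y → Y}

omit [MeasurableSpace Y] in
/-- averages of nonnegative functions along the positive part of the orbit -/
theorem ev_sum {g : Y → ℝ} (h0 : ∀ y, 0 ≤ g y) {x : Y} {L ε : ℝ}
    (h : Tendsto (fun k => av R k g x) atTop (𝓝 L)) (hL : L < ε) :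
    ∀ᶠ N : ℕ in atTop, ∑ n ∈ Icc 1 N, g (R^[n] x) ≤ ε * N := by
  have hL0 : 0 ≤ L := ge_of_tendsto' h fun k => by
    unfold av
    exact mul_nonneg (by positivity) (Finset.sum_nonneg fun i _ => h0 _)
  have hε : 0 < ε := lt_of_le_of_lt hL0 hL
  have h1 : Tendsto (fun N : ℕ => av R (N + 1) g x) atTop (𝓝 L) := h.comp (tendsto_add_atTop_nat 1)
  have h2 : ∀ᶠ N : ℕ in atTop, av R (N + 1) g x < (L + ε) / 2 :=
    h1.eventually (gt_mem_nhds (by linarith))
  have h3 : ∀ᶠ N : ℕ in atTop, (L + ε) / 2 ≤ (ε - L) / 2 * N := by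
    have : Tendsto (fun N : ℕ => (ε - L) / 2 * (N : ℝ)) atTop atTop :=
      Tendsto.const_mul_atTop (by linarith) tendsto_natCast_atTop_atTop
    exact this.eventually_ge_atTop _
  filter_upwards [h2, h3] with N g2 g3
  unfold av at g2
  have hN : (0 : ℝ) < ((N + 1 : ℕ) : ℝ) := by positivity
  rw [inv_mul_lt_iff₀ hN] at g2
  have h4 : ∑ n ∈ Icc 1 N, g (R^[n] x) ≤ ∑ i ∈ range (N + 1), g (R^[i] x) := by
    apply Finset.sum_le_sum_of_subset_of_nonneg
    · intro n hn
      rw [Finset.mem_Icc] at hn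
      rw [Finset.mem_range]
      omega
    · intro n _ _
      exact h0 _
  push_cast at g2
  nlinarith

/-- nonnegative integrable functions whose integrals tend to zero are small at almost all points -/
theorem ae_small {u : ℕ → Y → ℝ} (hi : ∀ k, Integrable (u k) ρ) (h0 : ∀ k, 0 ≤ᵐ[ρ] u k)
    (hlim : Tendsto (fun k => ∫ y, u k y ∂ρ) atTop (𝓝 0)) :
    ∀ᵐ x ∂ρ, ∀ ε : ℝ, 0 < ε → ∃ k, u k x < ε := by
  have key : ∀ m : ℕ, ∀ᵐ x ∂ρ, ∃ k, u k x < 1 / ((m : ℝ) + 1) := by
    intro m
    have hm : (0 : ℝ) < 1 / ((m : ℝ) + 1) := by positivity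
    rw [ae_iff]
    simp only [not_exists, not_lt]
    have h1 : ∀ k, ρ {x | ∀ k, 1 / ((m : ℝ) + 1) ≤ u k x} ≤
        ENNReal.ofReal ((∫ y, u k y ∂ρ) / (1 / ((m : ℝ) + 1))) := by
      intro k
      have h2 := mul_meas_ge_le_integral_of_nonneg (h0 k) (hi k) (1 / ((m : ℝ) + 1))
      have h5 : ρ {x | 1 / ((m : ℝ) + 1) ≤ u k x} ≠ ⊤ := by
        have := (hi k).measure_ge_lt_top hm
        exact this.ne
      have h3 : ρ.real {x | 1 / ((m : ℝ) + 1) ≤ u k x} ≤ (∫ y, u k y ∂ρ) / (1 / ((m : ℝ) + 1)) := by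
        rw [le_div_iff₀ hm]; linarith
      have h6 : ρ {x | ∀ k, 1 / ((m : ℝ) + 1) ≤ u k x} ≤ ρ {x | 1 / ((m : ℝ) + 1) ≤ u k x} :=
        measure_mono (fun x (hx : ∀ k, 1 / ((m : ℝ) + 1) ≤ u k x) => hx k)
      refine h6.trans ?_
      rw [← ENNReal.ofReal_toReal h5]
      exact ENNReal.ofReal_le_ofReal h3
    have h2 : Tendsto (fun k => ENNReal.ofReal ((∫ y, u k y ∂ρ) / (1 / ((m : ℝ) + 1)))) atTop (𝓝 0) := by
      have := ENNReal.tendsto_ofReal (hlim.div_const (1 / ((m : ℝ) + 1)))
      simpa using this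
    exact le_antisymm (ge_of_tendsto' h2 h1) zero_le'
  filter_upwards [ae_all_iff.2 key] with x hx ε hε
  obtain ⟨m, hm⟩ := exists_nat_one_div_lt hε
  obtain ⟨k, hk⟩ := hx m
  exact ⟨k, hk.trans hm⟩

/-- the truncation of a function -/
noncomputable def tr (f : Y → ℝ) (N : ℕ) (y : Y) : ℝ := max (-(N : ℝ)) (min (f y) N)

omit [MeasurableSpace Y] in
theorem tr_bound (f : Y → ℝ) (N : ℕ) (y : Y) : |tr f N y| ≤ N := by
  have : (0 : ℝ) ≤ N := Nat.cast_nonneg _
  rw [abs_le]
  exact ⟨le_max_left _ _, max_le (by linarith) (min_le_right _ _)⟩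

omit [MeasurableSpace Y] in
theorem tr_le (f : Y → ℝ) (N : ℕ) (y : Y) : |tr f N y| ≤ |f y| := by
  have h0 : (0 : ℝ) ≤ N := Nat.cast_nonneg _
  rw [abs_le]
  constructor
  · refine le_trans ?_ (le_max_right _ _)
    refine le_min (neg_abs_le _) ?_
    have := abs_nonneg (f y)
    linarith
  · refine max_le ?_ ((min_le_left _ _).trans (le_abs_self _))
    have := abs_nonneg (f y)
    linarith

theorem tr_meas {f : Y → ℝ} (hf : Measurable f) (N : ℕ) : Measurable (tr f N) :=
  Measurable.max measurable_const (hf.min measurable_const)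

omit [MeasurableSpace Y] in
theorem tr_lim (f : Y → ℝ) (y : Y) : ∀ᶠ N : ℕ in atTop, tr f N y = f y := by
  obtain ⟨N₀, hN₀⟩ := exists_nat_ge |f y|
  filter_upwards [eventually_ge_atTop N₀] with N hN
  have h2 : |f y| ≤ N := hN₀.trans (by exact_mod_cast hN)
  have h3 := abs_le.1 h2
  unfold tr
  rw [min_eq_left h3.2, max_eq_right h3.1]

theorem condExp_iter (f : Y → ℝ) (n : ℕ) (z : Y) :
    (ρ[f | MeasurableSpace.invariants R]) (R^[n] z) = (ρ[f | MeasurableSpace.invariants R]) z := by
  induction n generalizing z with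
  | zero => rfl
  | succ n ih =>
    rw [Function.iterate_succ_apply, ih]
    have h1 : StronglyMeasurable[MeasurableSpace.invariants R] (ρ[f | MeasurableSpace.invariants R]) :=
      stronglyMeasurable_condExp
    exact congrFun (MeasurableSpace.comp_eq_of_measurable_invariants h1.measurable) z

/-- **Almost every orbit is regular.** -/
theorem reg_orbit [IsProbabilityMeasure ρ] (hR : MeasurePreserving R ρ ρ) {f : Y → ℝ}
    (hf : Measurable f) (hi : Integrable f ρ) :
    ∀ᵐ x ∂ρ, Reg (fun n => f (R^[n] x)) ((ρ[f | MeasurableSpace.invariants R]) x) := by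
  have hle := MeasurableSpace.invariants_le R
  set EE : (Y → ℝ) → Y → ℝ := fun g => ρ[g | MeasurableSpace.invariants R] with hEE
  have hEm : ∀ g : Y → ℝ, Measurable (EE g) := fun g =>
    (stronglyMeasurable_condExp.mono hle).measurable
  have htri : ∀ K, Integrable (tr f K) ρ := fun K =>
    hi.abs.mono' (tr_meas hf K).aestronglyMeasurable (Eventually.of_forall fun y => by
      rw [Real.norm_eq_abs]; exact tr_le f K y)
  -- the differences
  set g : ℕ → Y → ℝ := fun K y => |f y - tr f K y| with hg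
  have hgm : ∀ K, Measurable (g K) := fun K => (hf.sub (tr_meas hf K)).abs
  have hgi : ∀ K, Integrable (g K) ρ := fun K => (hi.sub (htri K)).abs
  have hg0 : ∀ K y, 0 ≤ g K y := fun K y => abs_nonneg _
  have hglim : Tendsto (fun K => ∫ y, g K y ∂ρ) atTop (𝓝 0) := by
    have h1 : Tendsto (fun K => ∫ y, g K y ∂ρ) atTop (𝓝 (∫ _ : Y, (0 : ℝ) ∂ρ)) := by
      refine tendsto_integral_of_dominated_convergence (fun y => 2 * |f y|)
        (fun K => (hgm K).aestronglyMeasurable) (hi.abs.const_mul 2)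
        (fun K => Eventually.of_forall fun y => ?_) (Eventually.of_forall fun y => ?_)
      · rw [Real.norm_of_nonneg (hg0 K y)]
        have := tr_le f K y
        have := abs_sub (f y) (tr f K y)
        simp only [hg]
        linarith
      · refine tendsto_const_nhds.congr' ?_
        filter_upwards [tr_lim f y] with K hK
        simp only [hg]
        rw [hK, sub_self, abs_zero]
    simpa using h1
  have a1 : ∀ᵐ x ∂ρ, ∀ ε : ℝ, 0 < ε → ∃ K, EE (g K) x < ε := by
    apply ae_small (fun K => integrable_condExp)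
      (fun K => condExp_nonneg (Eventually.of_forall fun y => hg0 K y))
    refine hglim.congr fun K => ?_
    exact (integral_condExp hle).symm
  -- the window means of the truncations
  set h : ℕ → ℕ → Y → ℝ := fun K H y => |av R (H + 1) (tr f K) y - EE (tr f K) y| with hh
  have hhm : ∀ K H, Measurable (h K H) := fun K H =>
    ((av_meas hR.measurable (tr_meas hf K) (H + 1)).sub (hEm _)).abs
  have hhi : ∀ K H, Integrable (h K H) ρ := fun K H =>
    ((av_int hR (htri K) (H + 1)).sub integrable_condExp).abs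
  have hh0 : ∀ K H y, 0 ≤ h K H y := fun K H y => abs_nonneg _
  have hhlim : ∀ K, Tendsto (fun H => ∫ y, h K H y ∂ρ) atTop (𝓝 0) := by
    intro K
    have h1 : Tendsto (fun H => ∫ y, h K H y ∂ρ) atTop (𝓝 (∫ _ : Y, (0 : ℝ) ∂ρ)) := by
      have hb : ∀ᵐ y ∂ρ, |EE (tr f K) y| ≤ K := by
        exact ae_bdd_abs_condExp_of_ae_bdd_abs (m := MeasurableSpace.invariants R) (μ := ρ) (R := (K : ℝ))
          (f := tr f K) (Eventually.of_forall fun y => tr_bound f K y)
      refine tendsto_integral_of_dominated_convergence (fun _ => (K : ℝ) + K)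
        (fun H => (hhm K H).aestronglyMeasurable) (integrable_const _) (fun H => ?_) ?_
      · filter_upwards [hb] with y hy
        rw [Real.norm_of_nonneg (hh0 K H y)]
        have h2 : |av R (H + 1) (tr f K) y| ≤ K := by
          unfold av
          rw [abs_mul, abs_inv, Nat.abs_cast]
          have h3 : |∑ i ∈ range (H + 1), tr f K (R^[i] y)| ≤ ∑ i ∈ range (H + 1), (K : ℝ) :=
            (Finset.abs_sum_le_sum_abs _ _).trans (Finset.sum_le_sum fun i _ => tr_bound f K _)
          rw [Finset.sum_const, card_range, nsmul_eq_mul] at h3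
          rw [inv_mul_le_iff₀ (by positivity)]
          exact h3
        exact (abs_sub _ _).trans (add_le_add h2 hy)
      · filter_upwards [birkhoff_L1 hR (tr_meas hf K) (htri K)] with y hy
        have h2 := ((hy.comp (tendsto_add_atTop_nat 1)).sub_const (EE (tr f K) y)).abs
        have h3 : |(ρ[tr f K | MeasurableSpace.invariants R]) y - EE (tr f K) y| = 0 := by
          simp [hEE]
        rw [h3] at h2
        exact h2
    simpa using h1
  have a2 : ∀ᵐ x ∂ρ, ∀ K, ∀ ε : ℝ, 0 < ε → ∃ H, EE (h K H) x < ε := by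
    rw [ae_all_iff]
    intro K
    apply ae_small (fun H => integrable_condExp)
      (fun H => condExp_nonneg (Eventually.of_forall fun y => hh0 K H y))
    refine (hhlim K).congr fun H => ?_
    exact (integral_condExp hle).symm
  have a3 : ∀ᵐ x ∂ρ, ∀ K, |EE (tr f K) x - EE f x| ≤ EE (g K) x := by
    rw [ae_all_iff]
    intro K
    have e1 := condExp_sub (m := MeasurableSpace.invariants R) (μ := ρ) hi (htri K)
    have e2 : ρ[f - tr f K | MeasurableSpace.invariants R] ≤ᵐ[ρ] EE (g K) :=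
      condExp_mono (hi.sub (htri K)) (hgi K) (Eventually.of_forall fun y => le_abs_self _)
    have e3 : ρ[fun y => -(g K y) | MeasurableSpace.invariants R] ≤ᵐ[ρ]
        ρ[f - tr f K | MeasurableSpace.invariants R] :=
      condExp_mono (hgi K).neg (hi.sub (htri K)) (Eventually.of_forall fun y => neg_abs_le _)
    have e4 := condExp_neg (m := MeasurableSpace.invariants R) (μ := ρ) (g K)
    filter_upwards [e1, e2, e3, e4] with x h1 h2 h3 h4
    rw [h1] at h2 h3
    have h4' : (ρ[fun y => -(g K y) | MeasurableSpace.invariants R]) x = -(EE (g K) x) := h4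
    rw [h4'] at h3
    simp only [Pi.sub_apply] at h2 h3
    rw [abs_le]
    constructor
    · show -(EE (g K) x) ≤ EE (tr f K) x - EE f x
      have : EE f x - EE (tr f K) x ≤ EE (g K) x := h2
      linarith
    · have : -(EE (g K) x) ≤ EE f x - EE (tr f K) x := h3
      linarith
  have a4 : ∀ᵐ x ∂ρ, ∀ K, Tendsto (fun k => av R k (g K) x) atTop (𝓝 (EE (g K) x)) := by
    rw [ae_all_iff]
    exact fun K => birkhoff_L1 hR (hgm K) (hgi K)
  have a5 : ∀ᵐ x ∂ρ, ∀ K H, Tendsto (fun k => av R k (h K H) x) atTop (𝓝 (EE (h K H) x)) := by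
    rw [ae_all_iff]
    intro K
    rw [ae_all_iff]
    exact fun H => birkhoff_L1 hR (hhm K H) (hhi K H)
  filter_upwards [a1, a2, a3, a4, a5] with x b1 b2 b3 b4 b5 ε hε
  obtain ⟨K, hK⟩ := b1 (ε / 2) (by positivity)
  obtain ⟨H, hH⟩ := b2 K (ε / 2) (by positivity)
  refine ⟨fun n => tr f K (R^[n] x), ⟨K, fun n => tr_bound f K _⟩, ?_, H + 1, by omega, ?_⟩
  · filter_upwards [ev_sum (hg0 K) (b4 K) hK] with N hN
    have h1 : ∑ n ∈ Icc 1 N, ‖f (R^[n] x) - tr f K (R^[n] x)‖ = ∑ n ∈ Icc 1 N, g K (R^[n] x) := rfl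
    rw [h1]
    have : (0 : ℝ) ≤ N := Nat.cast_nonneg _
    nlinarith
  · filter_upwards [ev_sum (hh0 K H) (b5 K H) hH] with N hN
    have h1 : ∀ n ∈ Icc 1 N, ‖win (fun n => tr f K (R^[n] x)) (H + 1) n - EE f x‖ ≤
        h K H (R^[n] x) + ε / 2 := by
      intro n _
      have h2 : win (fun n => tr f K (R^[n] x)) (H + 1) n = av R (H + 1) (tr f K) (R^[n] x) := by
        unfold win av
        rw [smul_eq_mul]
        congr 1
        apply Finset.sum_congr rfl
        intro i _
        rw [← Function.iterate_add_apply, add_comm i n]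
      have h3 : EE (tr f K) (R^[n] x) = EE (tr f K) x := condExp_iter (tr f K) n x
      rw [h2, Real.norm_eq_abs]
      have h4 : av R (H + 1) (tr f K) (R^[n] x) - EE f x =
          (av R (H + 1) (tr f K) (R^[n] x) - EE (tr f K) (R^[n] x)) + (EE (tr f K) x - EE f x) := by
        rw [h3]; ring
      rw [h4]
      refine (abs_add_le _ _).trans (add_le_add le_rfl ?_)
      exact (b3 K).trans hK.le
    refine (Finset.sum_le_sum h1).trans ?_
    rw [Finset.sum_add_distrib, Finset.sum_const, Nat.card_Icc, nsmul_eq_mul, Nat.add_sub_cancel]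
    linarith

end Pool.Agent.U339.CE
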